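import Pool.Agent.W263.LG.NFSys

/-!
# The leading coefficient `L*(E/K, 1)` and means of the numbers of points

Let `E : y² = x³ + a x + b` be an elliptic curve over a number field `K`, `a, b ∈ 𝓞_K`, `S` a finite set of
places which contains all places dividing `2 (4a³ + 27b²)`, and let the Euler factors at the places of
`S` be arbitrary inverse polynomials `B_v(q_v^{-s})⁻¹` without poles for `Re s ≥ 1` (for the
Hasse-Weil `L`-function they are of the usual form).  Put, for `k = 0, 1, 2, …`,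

  `R_k(x) = ∑_{v ∉ S, q_v ≤ x} (1 - log q_v / log x)^k log (#E(𝔽_v) / q_v)`,
  `M_k(x) = ∑_{v ∉ S, q_v^j ≤ x} (1 - log q_v^j / log x)^k (α_v^j + β_v^j) / (j q_v^j)`,
  `H_k(x) = log Λ + ∑_{v ∈ S} log |B_v(q_v^{-1})| - r (log log x + γ - (1 + 1/2 + ⋯ + 1/k))`.

`R_0(x)` is the logarithm of the product of Birch and Swinnerton-Dyer, `R_1(x)` its logarithmic mean,
and `H_k(x)` is what one expects for `M_k(x)` if `L(E/K, s) ~ Λ (s - 1)^r`.

For `K = ℚ` (where continuation and growth are known) Goldfeld showed that an asymptotic formula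
`exp R_0(x) ~ C (log x)^r` implies the Riemann hypothesis and `ord L = r`, with the value of `C`.  Here
the continuation of `L(E/K, s)` is not assumed (it is part of the question), and the asymptotic formula
is replaced by an UPPER bound for one of the means `R_k`.

The proof uses Hasse's bound (proved here for all residue fields of odd characteristic), Landau's
lemma for Laplace transforms, Tauberian theorems of Karamata's type with the constant term, the theorem
of Borel and Caratheodory and Laplace inversion; everything is proved in the imported files.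
-/

set_option autoImplicit false

namespace Pool.Agent.Results.MP_e996df_nt.LeadingCoefficient

open NumberField IsDedekindDomain Filter Topology Polynomial
open Pool.Agent.W263.LG.NF
open Pool.Agent.W263.LG (MK mt HLead)
open Pool.Agent.W263.MN (LDB)

variable {K : Type} [Field K] [NumberField K]

theorem cen : ((1 : ℝ) + 1) / 2 = 1 := by norm_num

theorem cen2 : ((1 : ℝ) + 2) / 2 = 3 / 2 := by norm_num

/-- **The leading coefficient of `L(E/K, s)` at `s = 1` and means of numbers of points.**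

Part A.  No continuation is assumed; let `r` and `Λ > 0` be real numbers.  The following are
equivalent.
1. `M_k(x) - H_k(x) → 0` for some `k`.
2. `L(E/K, s)` has an analytic continuation `F` to a neighbourhood of the real half line `s > 1` with
`|F(s)| / (s-1)^r → Λ` as `s → 1⁺`, and `R_k(x) ≤ r log log x + C` for some `k`, `C` and all large `x`.
3. `L(E/K, s)` has such a continuation without real zeros `s > 1`, and `R_k(x) ≥ r log log x - C` for
some `k`, `C` and all large `x`.
4. `L(E/K, s)` has an analytic continuation to the half plane `Re s > 1`, without zeros, with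
`|F(s)| / (s-1)^r → Λ`, and `|R_k(x) - r log log x| ≤ C` for some `k`, `C` and all large `x`.

Part B.  Let `F` be an analytic continuation of `L(E/K, s)` to a neighbourhood of the real half line
`s ≥ 1`, of order `r` at `s = 1`, and let `Λ = |F^{(r)}(1)| / r!` be the absolute value of its leading
coefficient.  Then `Λ > 0`, and the following are equivalent.
1. `R_k(x) ≤ C log log x` for some `k`, `C` and all large `x`.
2. `F` has no real zeros `s > 1`, and `R_k(x) ≥ -C log log x` for some `k`, `C` and all large `x`.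
3. `M_k(x) - H_k(x) → 0` for some `k`.
4. `M_k(x) = H_k(x) + O(1 / log x)` for some `k`.
5. `L(E/K, s)` has an analytic continuation `G` to the half plane `Re s > 1`, without zeros, and `G'/G`
grows at most polynomially in `|s|` and `1 / (Re s - 1)` for `1 < Re s ≤ 2`.

Part C.  Let moreover `F` be an analytic continuation to the half plane `Re s > 1` of at most
polynomial growth.  The following are equivalent.
1. `F(s) ≠ 0` for `Re s > 1`.
2. `R_1(x) ≤ C log log x` for all large `x`.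
3. `R_1(x) = r log log x + O(1)`.
4. `M_2(x) = H_2(x) + O(1 / log x)`.

Part D.  Let `F` be an analytic continuation of `L(E/K, s)` to a neighbourhood of the real half line
`s > 1`, `|F(s)| / (s-1)^r → Λ > 0`.  Then for all `k` and all `ε > 0` there are arbitrarily large `x` with
`M_k(x) < H_k(x) + ε`; and if `F` has no real zeros `s > 1`, there are arbitrarily large `x` with
`M_k(x) > H_k(x) - ε`. -/
theorem result (K : Type) [Field K] [NumberField K] (a b : 𝓞 K)
    (S : Finset (HeightOneSpectrum (𝓞 K)))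
    (hS : ∀ v, v ∉ S → 2 * (4 * a ^ 3 + 27 * b ^ 2) ∉ v.asIdeal)
    (B : HeightOneSpectrum (𝓞 K) → ℂ[X]) (hB : BadFactors S B) :
    (∀ r Λ : ℝ, 0 < Λ → List.TFAE [
      ∃ k : ℕ, Tendsto (fun x : ℝ => logMean a b S k x - mainTerm S B r Λ k x) atTop (𝓝 0),
      (∃ F : ℂ → ℂ, ContinuesAlongReals a b S B F ∧ HasLeading F r Λ) ∧
        ∃ (k : ℕ) (C : ℝ), ∀ᶠ x : ℝ in atTop,
          productMean a b S k x ≤ r * Real.log (Real.log x) + C,
      (∃ F : ℂ → ℂ, ContinuesAlongReals a b S B F ∧ HasLeading F r Λ ∧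
        ∀ s : ℝ, 1 < s → F s ≠ 0) ∧
        ∃ (k : ℕ) (C : ℝ), ∀ᶠ x : ℝ in atTop,
          r * Real.log (Real.log x) - C ≤ productMean a b S k x,
      (∃ F : ℂ → ℂ, ContinuesToHalfPlane a b S B F ∧ (∀ s : ℂ, 1 < s.re → F s ≠ 0) ∧
        HasLeading F r Λ) ∧
        ∃ (k : ℕ) (C : ℝ), ∀ᶠ x : ℝ in atTop,
          |productMean a b S k x - r * Real.log (Real.log x)| ≤ C]) ∧
    (∀ (F : ℂ → ℂ) (r : ℕ), ContinuesAlongReals a b S B F → AnalyticAt ℂ F 1 →
      analyticOrderAt F 1 = r →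
      0 < ‖iteratedDeriv r F 1‖ / r.factorial ∧
      List.TFAE [
        ∃ (k : ℕ) (C : ℝ), ∀ᶠ x : ℝ in atTop,
          productMean a b S k x ≤ C * Real.log (Real.log x),
        (∀ s : ℝ, 1 < s → F s ≠ 0) ∧
          ∃ (k : ℕ) (C : ℝ), ∀ᶠ x : ℝ in atTop,
            -(C * Real.log (Real.log x)) ≤ productMean a b S k x,
        ∃ k : ℕ, Tendsto (fun x : ℝ => logMean a b S k x -
          mainTerm S B r (‖iteratedDeriv r F 1‖ / r.factorial) k x) atTop (𝓝 0),
        ∃ (k : ℕ) (C : ℝ), ∀ᶠ x : ℝ in atTop, |logMean a b S k x -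
          mainTerm S B r (‖iteratedDeriv r F 1‖ / r.factorial) k x| ≤ C / Real.log x,
        ∃ G : ℂ → ℂ, ContinuesToHalfPlane a b S B G ∧ (∀ s : ℂ, 1 < s.re → G s ≠ 0) ∧
          LogDerivBound G]) ∧
    (∀ (F : ℂ → ℂ) (r : ℕ), ContinuesToHalfPlane a b S B F → AnalyticAt ℂ F 1 →
      analyticOrderAt F 1 = r →
      (∃ (C : ℝ) (A : ℕ), ∀ s : ℂ, 1 < s.re → ‖F s‖ ≤ C * (1 + ‖s‖) ^ A) →
      List.TFAE [
        ∀ s : ℂ, 1 < s.re → F s ≠ 0,
        ∃ C : ℝ, ∀ᶠ x : ℝ in atTop, productMean a b S 1 x ≤ C * Real.log (Real.log x),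
        ∃ C : ℝ, ∀ᶠ x : ℝ in atTop,
          |productMean a b S 1 x - r * Real.log (Real.log x)| ≤ C,
        ∃ C : ℝ, ∀ᶠ x : ℝ in atTop, |logMean a b S 2 x -
          mainTerm S B r (‖iteratedDeriv r F 1‖ / r.factorial) 2 x| ≤ C / Real.log x]) ∧
    (∀ (F : ℂ → ℂ) (r Λ : ℝ), 0 < Λ → ContinuesAlongReals a b S B F → HasLeading F r Λ →
      ∀ (k : ℕ) (ε : ℝ), 0 < ε →
        (∃ᶠ x : ℝ in atTop, logMean a b S k x < mainTerm S B r Λ k x + ε) ∧
        ((∀ s : ℝ, 1 < s → F s ≠ 0) →
          ∃ᶠ x : ℝ in atTop, mainTerm S B r Λ k x - ε < logMean a b S k x)) := by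
  revert S
  intro (S : Finset (Pool.Agent.H341R2.sysK K).X) hS hB
  have hS2 : ∀ v, v ∉ S → (2 : 𝓞 K) ∉ v.asIdeal := fun v hv h =>
    hS v hv (v.asIdeal.mul_mem_right _ h)
  have E : Pool.Agent.W263.EP.TData (Pool.Agent.H341R2.sysK K)
      (Pool.Agent.W263.EP.tn (Pool.Agent.H341R2.sysK K)
        (S : Set (Pool.Agent.H341R2.sysK K).X)
        (powerTrace a b) 1) 2 := tdataK hS2
  have hB' : ∀ x ∈ S, ∀ s : ℂ, ((1 : ℝ) + 1) / 2 ≤ s.re →
      (B x).eval ((((Pool.Agent.H341R2.sysK K).N x : ℕ) : ℂ) ^ (-s)) ≠ 0 := by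
    intro x hx s hs
    rw [cen] at hs
    exact hB x hx s hs
  have hCont : ∀ F : ℂ → ℂ, Pool.Agent.W263.EP.IsContB (Pool.Agent.H341R2.sysK K) S B
      (powerTrace a b) 1 F ↔ ContinuesAlongReals a b S B F := by
    intro F
    unfold Pool.Agent.W263.EP.IsContB ContinuesAlongReals
    rw [cen, cen2]
    refine and_congr Iff.rfl (forall₂_congr fun s hs => ?_)
    rw [LFB_K hS2 B (by rw [Complex.ofReal_re]; linarith)]
  have hFull : ∀ F : ℂ → ℂ, Pool.Agent.W263.EP.IsFullB (Pool.Agent.H341R2.sysK K) S B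
      (powerTrace a b) 1 F ↔ ContinuesToHalfPlane a b S B F ∧
        ∀ s : ℂ, 1 < s.re → F s ≠ 0 := by
    intro F
    unfold Pool.Agent.W263.EP.IsFullB ContinuesToHalfPlane
    rw [cen, cen2]
    have h1 : (∀ s : ℂ, 3 / 2 < s.re → F s = Pool.Agent.W263.EP.LFB
        (Pool.Agent.H341R2.sysK K) S B (powerTrace a b) s) ↔
        ∀ s : ℂ, 3 / 2 < s.re → F s = LFun a b S B s := by
      refine forall₂_congr fun s hs => ?_
      rw [LFB_K hS2 B (by linarith)]
    rw [h1]
    tauto
  have hLead : ∀ (F : ℂ → ℂ) (r Λ : ℝ), HLead (((1 : ℝ) + 1) / 2) F r Λ ↔ HasLeading F r Λ := by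
    intro F r Λ
    unfold HLead HasLeading
    rw [cen]
  have hLD : ∀ G : ℂ → ℂ, LDB (((1 : ℝ) + 1) / 2) G ↔ LogDerivBound G := by
    intro G
    unfold LDB LogDerivBound
    rw [cen, show (1 : ℝ) + 1 = 2 by norm_num]
  have hcc : ((((1 : ℝ) + 1) / 2 : ℝ) : ℂ) = 1 := by
    rw [cen, Complex.ofReal_one]
  have hM : ∀ k x, MK (Pool.Agent.H341R2.sysK K)
      (S : Set (Pool.Agent.H341R2.sysK K).X)
      (powerTrace a b) 1 k x = logMean a b S k x := fun k x => MK_K S k x
  have hR : ∀ k x, Pool.Agent.W263.EP.RK (Pool.Agent.H341R2.sysK K)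
      (S : Set (Pool.Agent.H341R2.sysK K).X)
      (powerTrace a b) 1 k x = productMean a b S k x := fun k x => RK_K hS2 k x
  have hbb : Real.log ‖Pool.Agent.W263.EP.BB (Pool.Agent.H341R2.sysK K) S B
      ((((1 : ℝ) + 1) / 2 : ℝ) : ℂ)‖ = badConstant S B := by
    refine (Pool.Agent.W263.LG.log_BB (S := Pool.Agent.H341R2.sysK K) (Bs := S) (B := B)
      (ω := 1) hB').trans ?_
    unfold badConstant
    refine Finset.sum_congr rfl fun v _ => ?_
    rw [hcc, Complex.cpow_neg_one]
    rfl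
  have hmt : ∀ (r Λ : ℝ) (k : ℕ) (x : ℝ), mt r (Real.log Λ + Real.log
      ‖Pool.Agent.W263.EP.BB (Pool.Agent.H341R2.sysK K) S B ((((1 : ℝ) + 1) / 2 : ℝ) : ℂ)‖) k x =
      mainTerm S B r Λ k x := by
    intro r Λ k x
    rw [hbb]
    rfl
  refine ⟨?_, ?_, ?_, ?_⟩
  · intro r Λ hΛ
    have key := Pool.Agent.W263.LG.lead_meansB E hB' r hΛ
    have c1 := fun k : ℕ => Pool.Agent.W263.LG.RK_mt_upper E (k := k) (ρ := r)
      (L := Real.log Λ + Real.log ‖Pool.Agent.W263.EP.BB (Pool.Agent.H341R2.sysK K) S B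
        ((((1 : ℝ) + 1) / 2 : ℝ) : ℂ)‖)
    have c2 := fun k : ℕ => Pool.Agent.W263.LG.RK_mt_lower E (k := k) (ρ := r)
      (L := Real.log Λ + Real.log ‖Pool.Agent.W263.EP.BB (Pool.Agent.H341R2.sysK K) S B
        ((((1 : ℝ) + 1) / 2 : ℝ) : ℂ)‖)
    have c3 := fun k : ℕ => Pool.Agent.W263.LG.RK_mt_abs E (k := k) (ρ := r)
      (L := Real.log Λ + Real.log ‖Pool.Agent.W263.EP.BB (Pool.Agent.H341R2.sysK K) S B
        ((((1 : ℝ) + 1) / 2 : ℝ) : ℂ)‖)
    simp only [hmt, hM, hR] at c1 c2 c3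
    simp only [hmt, hM, hCont, hFull, hLead] at key
    simp only [c1, c2, c3] at key
    simp only [cen, and_assoc] at key ⊢
    exact key
  · intro F r hF hA hr
    have hA' : AnalyticAt ℂ F ((1 : ℝ) : ℂ) := by rwa [Complex.ofReal_one]
    have hr' : analyticOrderAt F ((1 : ℝ) : ℂ) = r := by rwa [Complex.ofReal_one]
    obtain ⟨h0, h1⟩ := Pool.Agent.W263.EP.lead_limit_at hA' hr'
    rw [Complex.ofReal_one] at h0 h1
    refine ⟨h0, ?_⟩
    have hA2 : AnalyticAt ℂ F ((((1 : ℝ) + 1) / 2 : ℝ) : ℂ) := by rwa [hcc]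
    have hn : meromorphicOrderAt F ((((1 : ℝ) + 1) / 2 : ℝ) : ℂ) = ((r : ℤ) : WithTop ℤ) := by
      rw [hA2.meromorphicOrderAt_eq, hcc, hr]
      rfl
    have hL : HLead (((1 : ℝ) + 1) / 2) F ((r : ℤ) : ℝ) (‖iteratedDeriv r F 1‖ / r.factorial) := by
      rw [hLead]
      refine h1.congr fun s => ?_
      rw [Int.cast_natCast, Real.rpow_natCast]
    have key := Pool.Agent.W263.LG.mero_meansB E hB' ((hCont F).mpr hF) hA2.meromorphicAt hn h0 hL
    have hcast : ((r : ℤ) : ℝ) = (r : ℝ) := Int.cast_natCast r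
    rw [hcast] at key
    have u1 : (∃ (k : ℕ) (C : ℝ), ∀ᶠ x : ℝ in atTop,
        productMean a b S k x ≤ C * Real.log (Real.log x)) ↔
        ∃ (k : ℕ) (K' : ℝ), ∀ᶠ x : ℝ in atTop, -(K' * Real.log (Real.log x)) ≤
          MK (Pool.Agent.H341R2.sysK K)
            (S : Set (Pool.Agent.H341R2.sysK K).X)
            (powerTrace a b) 1 k x := by
      refine exists_congr fun k => ?_
      have := Pool.Agent.W263.LG.RK_upper_iff E (k := k)
      simp only [hR] at this
      exact this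
    have u2 : (∃ (k : ℕ) (C : ℝ), ∀ᶠ x : ℝ in atTop,
        -(C * Real.log (Real.log x)) ≤ productMean a b S k x) ↔
        ∃ (k : ℕ) (K' : ℝ), ∀ᶠ x : ℝ in atTop,
          MK (Pool.Agent.H341R2.sysK K)
            (S : Set (Pool.Agent.H341R2.sysK K).X)
            (powerTrace a b) 1 k x ≤ K' * Real.log (Real.log x) := by
      refine exists_congr fun k => ?_
      have := Pool.Agent.W263.LG.RK_lower_iff E (k := k)
      simp only [hR] at this
      exact this
    rw [← u1, ← u2] at key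
    simp only [hmt, hM, hFull, hLD] at key
    simp only [cen, and_assoc] at key ⊢
    exact key
  · intro F r hF hA hr hg
    have hA' : AnalyticAt ℂ F ((1 : ℝ) : ℂ) := by rwa [Complex.ofReal_one]
    have hr' : analyticOrderAt F ((1 : ℝ) : ℂ) = r := by rwa [Complex.ofReal_one]
    obtain ⟨h0, h1⟩ := Pool.Agent.W263.EP.lead_limit_at hA' hr'
    rw [Complex.ofReal_one] at h0 h1
    have hA2 : AnalyticAt ℂ F ((((1 : ℝ) + 1) / 2 : ℝ) : ℂ) := by rwa [hcc]
    have hn : meromorphicOrderAt F ((((1 : ℝ) + 1) / 2 : ℝ) : ℂ) = ((r : ℤ) : WithTop ℤ) := by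
      rw [hA2.meromorphicOrderAt_eq, hcc, hr]
      rfl
    have hL : HLead (((1 : ℝ) + 1) / 2) F ((r : ℤ) : ℝ) (‖iteratedDeriv r F 1‖ / r.factorial) := by
      rw [hLead]
      refine h1.congr fun s => ?_
      rw [Int.cast_natCast, Real.rpow_natCast]
    have hd : ∀ s : ℂ, ((1 : ℝ) + 1) / 2 < s.re → DifferentiableAt ℂ F s := by
      intro s hs
      rw [cen] at hs
      exact hF.1.differentiableAt ((Pool.Agent.W263.BSD.isOpen_half _).mem_nhds hs)
    have he : ∀ s : ℂ, ((1 : ℝ) + 2) / 2 < s.re →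
        F s = Pool.Agent.W263.EP.LFB (Pool.Agent.H341R2.sysK K) S B (powerTrace a b) s := by
      intro s hs
      rw [cen2] at hs
      rw [LFB_K hS2 B (by linarith)]
      exact hF.2 s hs
    have hg' : ∃ (C : ℝ) (A : ℕ), ∀ s : ℂ, ((1 : ℝ) + 1) / 2 < s.re →
        ‖F s‖ ≤ C * (1 + ‖s‖) ^ A := by
      rw [cen]
      exact hg
    have key := Pool.Agent.W263.LG.growth_meansB E hB' hd he hA2.meromorphicAt hn h0 hL hg'
    have hcast : ((r : ℤ) : ℝ) = (r : ℝ) := Int.cast_natCast r
    rw [hcast] at key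
    have u1 := Pool.Agent.W263.LG.RK_upper_iff E (k := 1)
    have u3 := Pool.Agent.W263.LG.RK_mt_abs E (k := 1) (ρ := (r : ℝ))
      (L := Real.log (‖iteratedDeriv r F 1‖ / r.factorial) +
        Real.log ‖Pool.Agent.W263.EP.BB (Pool.Agent.H341R2.sysK K) S B
        ((((1 : ℝ) + 1) / 2 : ℝ) : ℂ)‖)
    rw [← u1, u3] at key
    simp only [hmt, hM, hR] at key
    simp only [cen] at key
    exact key
  · intro F r Λ hΛ hF hL k ε hε
    constructor
    · have h := Pool.Agent.W263.LG.mk_freq_lowerB E hB' ((hCont F).mpr hF) hΛ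
        ((hLead F r Λ).mpr hL) k hε
      simp only [hmt, hM] at h
      exact h.mono fun x hx => by linarith
    · intro hne
      have h := Pool.Agent.W263.LG.mk_freq_upperB E hB' ((hCont F).mpr hF) hΛ
        ((hLead F r Λ).mpr hL) (fun s hs => hne s (by rwa [cen] at hs)) k hε
      simp only [hmt, hM] at h
      exact h.mono fun x hx => by linarith

end Pool.Agent.Results.MP_e996df_nt.LeadingCoefficient
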