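import Pool.Agent.W411.NL.ThmNF

/-!
# The order and the next Taylor coefficient of `L(E/K, s)` at `s = 1` as limits of means

Let `K` be a number field, `E : y² = x³ + a x + b` an elliptic curve, `a, b ∈ 𝓞 K` (every elliptic curve
over `K` has such an equation), `q_v = Nv`, `α_v + β_v = q_v - N_v`, `α_v β_v = q_v`, where `N_v` is the number
of affine points of `E` over the residue field, and

  `Ψ_k(x) = ∑_{q_v^j ≤ x} (1 - log q_v^j / log x)^k (α_v^j + β_v^j) log q_v / q_v^j`,

the sum over the primes `v ∤ 2(4a³ + 27b²)` and `j ≥ 1`.  The analytic continuation of `L(E/K, s)` to the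
point `s = 1` is not known in general.  Part 1 does not assume it: it shows that the existence of the
limit `c` of `Ψ_k(x) + (ρ/(k+1)) log x` for some `k` is equivalent to a statement on the behaviour of
`L(E/K, s)` near `s = 1` together with a one-sided bound for one of the means, and that it implies the
analytic continuation without zeros to `Re s > 1` and the existence of the leading coefficient
`L* = lim F(s) / (s-1)^ρ > 0`.  Part 2 identifies `ρ` and `c` if there is an analytic continuation `F` to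
`s = 1`: `ρ` is the order `r`, and `c` is a constant which is explicit if there is a functional equation.
Part 3 shows that for `F` of polynomial growth the Riemann hypothesis together with the equality
`r = rank E(K)` of the Birch and Swinnerton-Dyer conjecture is equivalent to the convergence of
`Ψ_3(x) + (rank E(K)/4) log x`.

The proof uses Hasse's bound, Landau's lemma, Karamata's theorem, the theorem of Borel and
Caratheodory and Laplace inversion; everything is proved in the imported files.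
-/

set_option autoImplicit false

namespace Pool.Agent.Results.MP_e996df_nt.LimitsOfMeans

open NumberField IsDedekindDomain Filter Topology
open Pool.Agent.W411.NL.NF (powerMean ContinuesAlongReals ContinuesToHalfPlane HasExpansion completed)

open Classical in
/-- The rank of the group of `K`-rational points of `y² = x³ + a x + b`. -/
noncomputable def rank {K : Type} [Field K] [NumberField K] (a b : 𝓞 K) : ℕ :=
  Module.finrank ℤ
    (WeierstrassCurve.Affine.Point
      (WeierstrassCurve.toAffine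
        ({ a₁ := 0, a₂ := 0, a₃ := 0, a₄ := (a : K), a₆ := (b : K) } : WeierstrassCurve K)))

/-- **Limits of the means over number fields.** -/
theorem result (K : Type) [Field K] [NumberField K] (a b : 𝓞 K)
    (hΔ : 4 * a ^ 3 + 27 * b ^ 2 ≠ 0) :
    -- Part 1: no continuation is assumed
    (∀ ρ c : ℝ, List.TFAE [
      ∃ k : ℕ, Tendsto (fun x => powerMean a b k x + ρ / (k + 1) * Real.log x) atTop (𝓝 c),
      (∃ F : ℂ → ℂ, ContinuesAlongReals a b F ∧ HasExpansion F ρ c) ∧
        ∃ (k : ℕ) (C : ℝ), ∀ᶠ x : ℝ in atTop, -C ≤ powerMean a b k x + ρ / (k + 1) * Real.log x,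
      (∃ F : ℂ → ℂ, ContinuesAlongReals a b F ∧ HasExpansion F ρ c ∧ ∀ s : ℝ, 1 < s → F s ≠ 0) ∧
        ∃ (k : ℕ) (C : ℝ), ∀ᶠ x : ℝ in atTop, powerMean a b k x + ρ / (k + 1) * Real.log x ≤ C,
      (∃ F : ℂ → ℂ, ContinuesToHalfPlane a b F ∧ HasExpansion F ρ c ∧
        (∀ s : ℂ, 1 < s.re → F s ≠ 0) ∧
        ∃ L : ℝ, 0 < L ∧
          Tendsto (fun s : ℝ => F s / (((s - 1) ^ ρ : ℝ) : ℂ)) (𝓝[>] 1) (𝓝 (L : ℂ))) ∧
        ∃ (k : ℕ) (C : ℝ), ∀ᶠ x : ℝ in atTop,
          |powerMean a b k x + ρ / (k + 1) * Real.log x| ≤ C]) ∧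
    -- Part 2: analytic continuation to a neighbourhood of `s = 1`
    (∀ (F : ℂ → ℂ) (r : ℕ), ContinuesAlongReals a b F → AnalyticAt ℂ F 1 → analyticOrderAt F 1 = r →
      ∃ c : ℝ, HasExpansion F r c ∧
        (∀ (A : ℝ) (ε : ℂ) (B : ℂ → ℂ), 0 < A → AnalyticAt ℂ B 1 → B 1 ≠ 0 →
          (∀ᶠ s in 𝓝 (1 : ℂ), completed A (Module.finrank ℚ K) B F s =
            ε * completed A (Module.finrank ℚ K) B F (2 - s)) →
          (c : ℂ) = ((1 / 2 * Real.log A - Module.finrank ℚ K * (Real.log (2 * Real.pi) +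
            Real.eulerMascheroniConstant) : ℝ) : ℂ) + deriv B 1 / B 1) ∧
        (∀ (k : ℕ) (ρ c' : ℝ),
          Tendsto (fun x => powerMean a b k x + ρ / (k + 1) * Real.log x) atTop (𝓝 c') →
          ρ = r ∧ c' = c) ∧
        (∀ (k : ℕ) (ε : ℝ), 0 < ε →
          ∃ᶠ x : ℝ in atTop, powerMean a b k x + r / (k + 1) * Real.log x < c + ε) ∧
        ((∀ s : ℝ, 1 < s → F s ≠ 0) → ∀ (k : ℕ) (ε : ℝ), 0 < ε →
          ∃ᶠ x : ℝ in atTop, c - ε < powerMean a b k x + r / (k + 1) * Real.log x) ∧
        -- Part 3: polynomial growth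
        (ContinuesToHalfPlane a b F →
          (∃ (C : ℝ) (A : ℕ), ∀ s : ℂ, 1 < s.re → ‖F s‖ ≤ C * (1 + ‖s‖) ^ A) →
          List.TFAE [
            ∀ s : ℂ, 1 < s.re → F s ≠ 0,
            ∃ C : ℝ, ∀ᶠ x : ℝ in atTop, |powerMean a b 2 x + r / 3 * Real.log x| ≤ C,
            Tendsto (fun x => powerMean a b 3 x + r / 4 * Real.log x) atTop (𝓝 c),
            ∃ (k : ℕ) (C : ℝ), ∀ᶠ x : ℝ in atTop, -(C * Real.log x) ≤ powerMean a b k x] ∧
          ((∀ s : ℂ, 1 < s.re → F s ≠ 0) ∧ r = rank a b ↔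
            ∃ c' : ℝ, Tendsto (fun x => powerMean a b 3 x + rank a b / 4 * Real.log x)
              atTop (𝓝 c')))) := by
  refine ⟨fun ρ c => Pool.Agent.W411.NL.NF.partA hΔ ρ c, ?_⟩
  intro F r hF hF1 hr
  have hm : MeromorphicAt F 1 := hF1.meromorphicAt
  have hn : meromorphicOrderAt F 1 = ((r : ℤ) : WithTop ℤ) := by
    rw [hF1.meromorphicOrderAt_eq, hr]
    rfl
  have hcast : ((r : ℤ) : ℝ) = (r : ℝ) := by push_cast; rfl
  obtain ⟨c, h1, h2⟩ := Pool.Agent.W411.NL.NF.partB hΔ hF hm hn
  have h2' : HasExpansion F r c := by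
    rw [hcast] at h2
    exact h2
  refine ⟨c, h2', ?_, ?_, ?_, ?_, ?_⟩
  · intro A ε B hA hB hB0 hs
    exact Pool.Agent.W411.NL.NF.partB' hm hn h1 hA hB hB0 hs
  · intro k ρ c' h
    exact Pool.Agent.W411.NL.NF.partU hΔ hF h2' h
  · intro k ε hε
    exact (Pool.Agent.W411.NL.NF.partD hΔ hF h2' k hε).1
  · intro hne k ε hε
    exact (Pool.Agent.W411.NL.NF.partD hΔ hF h2' k hε).2 hne
  · intro hH hg
    have key := Pool.Agent.W411.NL.NF.partC hΔ hH hm hn h2 hg
    simp only [hcast] at key
    refine ⟨key, ?_⟩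
    constructor
    · rintro ⟨h3, h4⟩
      have h5 := (key.out 0 2).mp h3
      rw [h4] at h5
      exact ⟨c, h5⟩
    · rintro ⟨c', h3⟩
      have h4 : Tendsto (fun x => powerMean a b 3 x + (rank a b : ℝ) / (((3 : ℕ) : ℝ) + 1) *
          Real.log x) atTop (𝓝 c') := by
        have e : ((3 : ℕ) : ℝ) + 1 = 4 := by norm_num
        rw [e]
        exact h3
      obtain ⟨h5, h6⟩ := Pool.Agent.W411.NL.NF.partU hΔ hF h2' h4
      have h7 : r = rank a b := by exact_mod_cast h5.symm
      refine ⟨?_, h7⟩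
      rw [← h7, h6] at h3
      exact (key.out 2 0).mp h3

end Pool.Agent.Results.MP_e996df_nt.LimitsOfMeans
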