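import Mathlib
import Pool.Agent.W262.SQ.Fam2
import Pool.Agent.W262.SH.DefB
import Pool.Agent.W756.SH.Twi
import Pool.Agent.W736.SH.PHI
import Pool.Agent.W654.SHB.Rkk
import Pool.Agent.W305.SH.Abs
import Pool.Agent.W352.SH.Grp

/-!
# The 2-part of `Ш` and the rank over multiquadratic fields: all exponential moments

Let `E : y² = x (x - A) (x - B)` and `D i (t) = b i * ∏_{g j = i} P j (t)` for `i < l`, the `P j`
polynomials with integer coefficients of degree one or two, irreducible over `ℚ` and pairwise not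
proportional. Over the number fields `K_t = ℚ(√D_1(t), ..., √D_l(t))` the average over the integers
`t` of an interval `(N, N + M]` with `|N| ≤ M ^ L` of `2 ^ (e * (rank E(K_t) + r t))` is bounded for
every `e` and `L`, where `Ш(E/K_t)` contains `(ℤ/2^(l+1))^(r t)`.
-/

namespace Pool.Agent.Results.MP_e996df_nt.MultiquadraticMoments

open Finset Polynomial

open Pool.Agent.W262.SH (E KD ShaN Has rkN)

/-- `D i (t) = b i * ∏ P j (t)`, the product over the `j` with `g j = i` -/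
def D {l s : ℕ} (b : Fin l → ℤ) (g : Fin s → Fin l) (P : Fin s → ℤ[X]) (t : ℤ) (i : Fin l) : ℤ :=
  b i * ∏ j ∈ univ.filter (fun j => g j = i), (P j).eval t

theorem D_eq {l s : ℕ} (b : Fin l → ℤ) (g : Fin s → Fin l) (P : Fin s → ℤ[X]) :
    Pool.Agent.W262.SQ.Dp b g P = D b g P := rfl

/-- The averages of `2 ^ (e * (rank E(K_t) + r t))` in short intervals are bounded. -/
theorem result (l s : ℕ) (A B : ℤ) (b : Fin l → ℤ) (g : Fin s → Fin l) (P : Fin s → ℤ[X])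
    (hA : A ≠ 0) (hB : B ≠ 0) (hAB : A ≠ B) (hb : ∀ i, b i ≠ 0)
    (hdeg : ∀ i, (P i).natDegree = 1 ∨ (P i).natDegree = 2)
    (hirr : ∀ i, Irreducible ((P i).map (Int.castRingHom ℚ)))
    (hne : ∀ i j, i ≠ j →
      ¬ Associated ((P i).map (Int.castRingHom ℚ)) ((P j).map (Int.castRingHom ℚ))) (e L : ℕ) :
    ∃ C : ℝ, ∀ r : ℤ → ℕ,
      (∀ t, (∀ i, D b g P t i ≠ 0) →
        Has (ShaN (E A B) (KD (D b g P t))) (2 ^ (l + 1)) (r t)) →
      ∀ (N : ℤ) (M : ℕ), 1 ≤ M → |N| ≤ (M : ℤ) ^ L →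
      ∑ t ∈ (Ioc N (N + M)).filter (fun t : ℤ => ∀ i, D b g P t i ≠ 0),
        (2 : ℝ) ^ (e * (rkN (E A B) (KD (D b g P t)) + r t)) ≤ C * M := by
  have hT : Pool.Agent.W262.SH.TWI := Pool.Agent.W756.SH.Twi.twi
  have hP : Pool.Agent.W262.SH.PHI := Pool.Agent.W736.SH.PHI.phi Pool.Agent.W305.SH.absc hT
  have hR : Pool.Agent.W262.SH.RKK := Pool.Agent.W654.SHB.rkk hT
  obtain ⟨C, -, hC⟩ := Pool.Agent.W262.SQ.sA (max e 1 * 2 ^ l)
    (Nat.one_le_iff_ne_zero.2 (Nat.mul_ne_zero (by omega) (by positivity))) A B b g P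
    ⟨hdeg, hirr, hne⟩ hA hB hAB hb L
  refine ⟨2 ^ l * C, fun r hr N M hM hN => ?_⟩
  have h := Pool.Agent.W262.SQ.sumB hP Pool.Agent.W352.SH.grp hR
    ((Ioc N (N + M)).filter (fun t : ℤ => ∀ i, D b g P t i ≠ 0)) (fun _ => A) (fun _ => B)
    (fun t => D b g P t) (C * M) (max e 1) r (fun _ _ => hA) (fun _ _ => hB) (fun _ _ => hAB)
    (fun t ht => (mem_filter.1 ht).2)
    (fun t ht => (Pool.Agent.W262.SH.has_shaN _ _ _ _).1 (hr t (mem_filter.1 ht).2))
    (fun s => by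
      have h1 := hC (N, M) ⟨hM, hN⟩ s
      rw [D_eq] at h1
      convert h1)
  rw [← mul_assoc] at h
  refine le_trans (sum_le_sum fun t _ => ?_) h
  refine le_trans (pow_le_pow_right₀ (by norm_num) (Nat.mul_le_mul_right _ (le_max_left e 1)))
    (le_of_eq ?_)
  exact congrArg (fun n : ℕ => (2 : ℝ) ^ (max e 1 * (n + r t)))
    (Pool.Agent.W262.SH.rkN_eq _ _ _ _)

end Pool.Agent.Results.MP_e996df_nt.MultiquadraticMoments
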